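import Pool.Agent.Helper25.GF.Goals

/-!
# Project GF (MP_766b49_co), packet GF-CYP
The probability that a vertex is the largest vertex of a cycle of a given length.
-/

set_option autoImplicit false

namespace Pool.Agent.Helper64.GF

open Finset
open Pool.Agent.Helper25.GF

lemma mem_ch_lt {d n : ℕ} (ω : Om d n) {x y : ℕ} (h : x ∈ ch ω y) : x < y := by
  unfold ch at h
  split_ifs at h with hy
  · simp only [mem_image, mem_univ, true_and] at h
    obtain ⟨j, rfl⟩ := h
    have := (ω ⟨y - 1, by omega⟩ j).isLt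
    simp only at this
    omega
  · simp at h

open Classical in
lemma Pr_mono {d n : ℕ} {E E' : Om d n → Prop} (h : ∀ ω, E ω → E' ω) : Pr E ≤ Pr E' := by
  unfold Pr
  apply div_le_div_of_nonneg_right _ (Nat.cast_nonneg _)
  exact_mod_cast Finset.card_le_card (fun ω hω => by
    simp only [mem_filter, mem_univ, true_and] at hω ⊢
    exact h ω hω)

open Classical in
lemma Pr_union {d n : ℕ} {ι : Type} (S : Finset ι) (E : ι → Om d n → Prop) :
    Pr (fun ω => ∃ a ∈ S, E a ω) ≤ ∑ a ∈ S, Pr (E a) := by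
  unfold Pr
  rw [← Finset.sum_div]
  apply div_le_div_of_nonneg_right _ (Nat.cast_nonneg _)
  have h1 : univ.filter (fun ω => ∃ a ∈ S, E a ω) ⊆ S.biUnion (fun a => univ.filter (E a)) := by
    intro ω hω
    simp only [mem_filter, mem_univ, true_and, mem_biUnion] at hω ⊢
    exact hω
  have h2 := (Finset.card_le_card h1).trans Finset.card_biUnion_le
  have h3 : ((univ.filter (fun ω => ∃ a ∈ S, E a ω)).card : ℝ) ≤
      ((∑ a ∈ S, (univ.filter (E a)).card : ℕ) : ℝ) := Nat.cast_le.2 h2
  rw [Nat.cast_sum] at h3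
  refine le_trans (le_of_eq ?_) (le_trans h3 (le_of_eq ?_))
  · exact congrArg _ (congrArg _ (Finset.filter_congr_decidable _ _ _))
  · exact Finset.sum_congr rfl (fun a _ =>
      congrArg _ (congrArg _ (Finset.filter_congr_decidable _ _ _)))

/-- the edges of the cycle -/
noncomputable def Fs (t m : ℕ) (a : Fin (m + 1) → ℕ) : Finset (ℕ × ℕ) :=
  insert (a 0, t) (insert (a (Fin.last m), t)
    (univ.image (fun i : Fin m => (min (a i.castSucc) (a i.succ), max (a i.castSucc) (a i.succ)))))

lemma pair_inj {m : ℕ} {a : Fin (m + 1) → ℕ} (ha : Function.Injective a) :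
    Function.Injective (fun i : Fin m =>
      (min (a i.castSucc) (a i.succ), max (a i.castSucc) (a i.succ))) := by
  intro i j hij
  simp only [Prod.mk.injEq] at hij
  obtain ⟨h1, h2⟩ := hij
  have h3 : (a i.castSucc = a j.castSucc ∧ a i.succ = a j.succ) ∨
      (a i.castSucc = a j.succ ∧ a i.succ = a j.castSucc) := by
    rcases le_total (a i.castSucc) (a i.succ) with h | h <;>
    rcases le_total (a j.castSucc) (a j.succ) with h' | h' <;>
    simp only [h, h', min_eq_left, min_eq_right, max_eq_left, max_eq_right] at h1 h2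
    · exact Or.inl ⟨h1, h2⟩
    · exact Or.inr ⟨h1, h2⟩
    · exact Or.inr ⟨h2, h1⟩
    · exact Or.inl ⟨h2, h1⟩
  rcases h3 with ⟨h, _⟩ | ⟨h, h'⟩
  · exact Fin.castSucc_injective m (ha h)
  · exfalso
    have e1 := congrArg Fin.val (ha h)
    have e2 := congrArg Fin.val (ha h')
    simp only [Fin.val_castSucc, Fin.val_succ] at e1 e2
    omega

lemma Pr_cy (h1 : EDG) {d n m t : ℕ} (hm : 1 ≤ m) (ht : t ≤ n) (a : Fin (m + 1) → ℕ)
    (ha : Function.Injective a) (hat : ∀ i, a i < t) :
    Pr (fun ω : Om d n => Cy ω t m a) ≤ (d : ℝ) ^ (m + 2) / (t : ℝ) ^ 2 *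
      ∏ i : Fin m, (1 : ℝ) / (max 1 (max (a i.castSucc) (a i.succ)) : ℕ) := by
  have hne : ∀ i : Fin m, a i.castSucc ≠ a i.succ := by
    intro i h
    have := congrArg Fin.val (ha h)
    simp only [Fin.val_castSucc, Fin.val_succ] at this
    omega
  have hF : ∀ e ∈ Fs t m a, e.1 < e.2 ∧ e.2 ≤ n := by
    intro e he
    unfold Fs at he
    simp only [mem_insert, mem_image, mem_univ, true_and] at he
    rcases he with rfl | rfl | ⟨i, rfl⟩
    · exact ⟨hat _, ht⟩
    · exact ⟨hat _, ht⟩
    · refine ⟨?_, ?_⟩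
      · have := hne i
        simp only [lt_max_iff, min_lt_iff]
        omega
      · have u1 := hat i.castSucc
        have u2 := hat i.succ
        simp only [max_le_iff]
        omega
  have hev : Pr (fun ω : Om d n => Cy ω t m a) ≤
      Pr (fun ω : Om d n => ∀ e ∈ Fs t m a, e.1 ∈ ch ω e.2) := by
    apply Pr_mono
    intro ω hω e he
    obtain ⟨_, _, c3, c4, c5⟩ := hω
    unfold Fs at he
    simp only [mem_insert, mem_image, mem_univ, true_and] at he
    rcases he with rfl | rfl | ⟨i, rfl⟩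
    · exact c3
    · exact c4
    · rcases c5 i with h | h
      · have := mem_ch_lt ω h
        simp only [min_eq_left this.le, max_eq_right this.le]
        exact h
      · have := mem_ch_lt ω h
        simp only [min_eq_right this.le, max_eq_left this.le]
        exact h
  refine hev.trans ((h1 d n (Fs t m a) hF).trans (le_of_eq ?_))
  have n1 : (a 0, t) ∉ insert (a (Fin.last m), t)
      (univ.image (fun i : Fin m =>
        (min (a i.castSucc) (a i.succ), max (a i.castSucc) (a i.succ)))) := by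
    simp only [mem_insert, mem_image, mem_univ, true_and, Prod.mk.injEq, not_or]
    refine ⟨?_, ?_⟩
    · rintro ⟨h, -⟩
      have := congrArg Fin.val (ha h)
      simp only [Fin.val_zero, Fin.val_last] at this
      omega
    · rintro ⟨i, -, h⟩
      have u1 := hat i.castSucc
      have u2 := hat i.succ
      have : max (a i.castSucc) (a i.succ) < t := max_lt u1 u2
      omega
  have n2 : (a (Fin.last m), t) ∉
      (univ.image (fun i : Fin m =>
        (min (a i.castSucc) (a i.succ), max (a i.castSucc) (a i.succ)))) := by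
    simp only [mem_image, mem_univ, true_and, Prod.mk.injEq]
    rintro ⟨i, -, h⟩
    have u1 := hat i.castSucc
    have u2 := hat i.succ
    have : max (a i.castSucc) (a i.succ) < t := max_lt u1 u2
    omega
  unfold Fs
  rw [Finset.prod_insert n1, Finset.prod_insert n2,
    Finset.prod_image (fun i _ j _ hij => pair_inj ha hij)]
  have hp : ∏ i : Fin m, ((d : ℝ) / ((max (a i.castSucc) (a i.succ) : ℕ) : ℝ)) =
      (d : ℝ) ^ m * ∏ i : Fin m, (1 : ℝ) / (max 1 (max (a i.castSucc) (a i.succ)) : ℕ) := by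
    have : (d : ℝ) ^ m = ∏ _i : Fin m, (d : ℝ) := by simp
    rw [this, ← Finset.prod_mul_distrib]
    apply Finset.prod_congr rfl
    intro i _
    have h2 : max 1 (max (a i.castSucc) (a i.succ)) = max (a i.castSucc) (a i.succ) := by
      apply max_eq_right
      have := hne i
      rcases Nat.lt_or_gt_of_ne this with h | h
      · exact le_max_of_le_right (by omega)
      · exact le_max_of_le_left (by omega)
    rw [h2]
    ring
  rw [hp]
  ring

/-- **GF-CYP** -/
theorem cyp (h1 : Pool.Agent.Helper25.GF.EDG) (h2 : Pool.Agent.Helper25.GF.PAS) :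
    Pool.Agent.Helper25.GF.CYP := by
  classical
  intro d n m t hm ht htn
  set S : Finset (Fin (m + 1) → ℕ) :=
    (Fintype.piFinset (fun _ : Fin (m + 1) => range t)).filter Function.Injective with hS
  have e1 : Pr (fun ω : Om d n => ∃ a : Fin (m + 1) → ℕ, Cy ω t m a) ≤
      Pr (fun ω : Om d n => ∃ a ∈ S, Cy ω t m a) := by
    apply Pr_mono
    rintro ω ⟨a, ha⟩
    refine ⟨a, ?_, ha⟩
    rw [hS, mem_filter, Fintype.mem_piFinset]
    exact ⟨fun i => mem_range.2 (ha.2.1 i), ha.1⟩
  have e2 := Pr_union S (fun a (ω : Om d n) => Cy ω t m a)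
  have e3 : ∑ a ∈ S, Pr (fun ω : Om d n => Cy ω t m a) ≤
      ∑ a ∈ S, (d : ℝ) ^ (m + 2) / (t : ℝ) ^ 2 *
        ∏ i : Fin m, (1 : ℝ) / (max 1 (max (a i.castSucc) (a i.succ)) : ℕ) := by
    apply Finset.sum_le_sum
    intro a ha
    rw [hS, mem_filter, Fintype.mem_piFinset] at ha
    exact Pr_cy h1 hm htn a ha.2 (fun i => mem_range.1 (ha.1 i))
  have e4 : ∑ a ∈ S, (d : ℝ) ^ (m + 2) / (t : ℝ) ^ 2 *
        ∏ i : Fin m, (1 : ℝ) / (max 1 (max (a i.castSucc) (a i.succ)) : ℕ) ≤
      ∑ a ∈ Fintype.piFinset (fun _ : Fin (m + 1) => range t),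
        (d : ℝ) ^ (m + 2) / (t : ℝ) ^ 2 *
        ∏ i : Fin m, (1 : ℝ) / (max 1 (max (a i.castSucc) (a i.succ)) : ℕ) := by
    apply Finset.sum_le_sum_of_subset_of_nonneg (Finset.filter_subset _ _)
    intro a _ _
    apply mul_nonneg
    · positivity
    · apply Finset.prod_nonneg
      intro i _
      positivity
  have e5 := h2 m t ht
  have htr : (0 : ℝ) < t := by exact_mod_cast ht
  calc Pr (fun ω : Om d n => ∃ a : Fin (m + 1) → ℕ, Cy ω t m a)
      ≤ _ := e1
    _ ≤ _ := e2
    _ ≤ _ := e3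
    _ ≤ _ := e4
    _ = (d : ℝ) ^ (m + 2) / (t : ℝ) ^ 2 *
        ∑ a ∈ Fintype.piFinset (fun _ : Fin (m + 1) => range t),
        ∏ i : Fin m, (1 : ℝ) / (max 1 (max (a i.castSucc) (a i.succ)) : ℕ) := by
        rw [Finset.mul_sum]
    _ ≤ (d : ℝ) ^ (m + 2) / (t : ℝ) ^ 2 * (t * (3 + Real.log t) ^ m) :=
        mul_le_mul_of_nonneg_left e5 (by positivity)
    _ = (d : ℝ) ^ (m + 2) * (3 + Real.log t) ^ m / t := by
        field_simp

end Pool.Agent.Helper64.GF
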